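import Pool.Agent.H.MP_79518d_co.C

set_option autoImplicit false

namespace Pool.Agent.Results.MP_79518d_co.MinMax

open Pool.Agent.H.MP_79518d_co

theorem result (V : Type) [Fintype V] [DecidableEq V] (D : DG V) (k : ℕ) (hD : KConn D k) :
    ∃ m : ℕ, IsGreatest {n | ∃ F, Admissible D k F ∧ F.card = n} m ∧ IsLeast (bounds D k) m := by
  have hne : (bounds D k).Nonempty := ⟨_, Or.inl rfl⟩
  refine ⟨sInf (bounds D k), ⟨?_, ?_⟩, Nat.sInf_mem hne, fun n hn => Nat.sInf_le hn⟩
  · exact (char' D k hD _).2 (fun n hn => Nat.sInf_le hn)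
  · intro n hn
    exact (char' D k hD n).1 hn _ (Nat.sInf_mem hne)

end Pool.Agent.Results.MP_79518d_co.MinMax
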